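import Pool.Agent.H504S.TaskQ
import Pool.Agent.H504S.TaskR
import Pool.Agent.H504C.TaskBF
import Pool.Agent.H504C.TaskBG

/-!
# Every C*-algebra has the trace description of Banach cyclic (co)homology

The vanishing of the simplicial cohomology `H^n(A, A*)`, `n ≥ 1` (handed in as S04091) gives, via the
relations `(1 - t) b = b' (1 - t)`, `N b' = b N` and the exactness of the `b'`-complex (approximate
units), the groups `HC^n(A)`; the homology follows by duality (Hahn-Banach, open mapping, closed range).
-/

set_option autoImplicit false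

namespace Pool.Agent.Results.MP_08bba9_an.TraceDescription

open H504CT

/-- For every C*-algebra `A`: `HC^n(A) = Zc / Bc` is topologically isomorphic to the space `T(A)` of
bounded traces and `HC_n(A) = Zh / Bh` to `A / closure [A, A]` for even `n`, and both groups vanish for
odd `n`. -/
theorem result (A : Type) [NonUnitalCStarAlgebra A] :
    (∀ n : ℕ, Even n → TopIso (Zc A n) (Bc A n) (Nb A n) (TA A) ∧
      TopIso (Zh A n) (Bh A n) (Nh A n) (A ⧸ comm A)) ∧
    (∀ n : ℕ, Odd n → Zc A n = Bc A n ∧ Zh A n = Bh A n) ∧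
    ∀ n : ℕ, Bc A n ≤ Zc A n ∧ Bh A n ≤ Zh A n := by
  have hH : H504C.HHv A :=
    H504C.HH_of A (H504S.final_step (fun B _ n T hT hc => H504S.main_unital B n T hT hc))
  exact ⟨fun n hn => ⟨H504C.BG_coh_even A hH n hn, H504C.BF_hom_even A hH n hn⟩,
    fun n hn => ⟨H504C.BG_coh_odd A hH n hn, H504C.BF_hom_odd A hH n hn⟩,
    fun n => ⟨H504C.BG_Bc_le A n, H504C.BF_Bh_le A n⟩⟩

end Pool.Agent.Results.MP_08bba9_an.TraceDescription
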